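import Pool.Agent.H2R.Virt

/-!
# Invariant hermitian forms
-/

set_option autoImplicit false

namespace Pool.Agent.H2G

open Matrix Pool.Agent.H2R
open scoped ComplexOrder

/-- A finite group preserves a positive definite form. -/
theorem exists_form (Γ : Subgroup (GL (Fin 2) ℂ)) [Finite Γ] :
    ∃ h : M2, h.PosDef ∧ ∀ γ ∈ Γ, (γ : M2)ᴴ * h * (γ : M2) = h := by
  classical
  have := Fintype.ofFinite Γ
  refine ⟨∑ γ : Γ, ((γ : GL (Fin 2) ℂ) : M2)ᴴ * ((γ : GL (Fin 2) ℂ) : M2), ?_, ?_⟩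
  · have h1 : ∀ γ : Γ, (((γ : GL (Fin 2) ℂ) : M2)ᴴ * ((γ : GL (Fin 2) ℂ) : M2)).PosSemidef :=
      fun γ => Matrix.posSemidef_conjTranspose_mul_self _
    rw [← Finset.add_sum_erase _ _ (Finset.mem_univ (1 : Γ))]
    refine Matrix.PosDef.add_posSemidef ?_ ?_
    · rw [OneMemClass.coe_one, Units.val_one, conjTranspose_one, one_mul]
      exact Matrix.PosDef.one
    · exact Matrix.posSemidef_sum _ fun γ _ => h1 γ
  · intro γ hγ
    rw [Finset.mul_sum, Finset.sum_mul]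
    refine Fintype.sum_equiv (Equiv.mulRight (⟨γ, hγ⟩ : Γ)) _ _ fun δ => ?_
    simp only [Equiv.coe_mulRight, Subgroup.coe_mul, Units.val_mul, conjTranspose_mul, mul_assoc]

/-- The form is unique if there is no common eigenvector. -/
theorem form_unique {a b h h' : M2} (hno : ∀ v, v ≠ 0 → EigV v a → EigV v b → False)
    (hh : h.PosDef) (ha : aᴴ * h * a = h) (hb : bᴴ * h * b = h) (ha' : aᴴ * h' * a = h')
    (hb' : bᴴ * h' * b = h') : ∃ c : ℂ, h' = c • h := by
  have hu : IsUnit h.det := (Matrix.isUnit_iff_isUnit_det _).1 hh.isUnit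
  set C : M2 := h⁻¹ * h' with hC
  have hhC : h * C = h' := by rw [hC, ← mul_assoc, Matrix.mul_nonsing_inv _ hu, one_mul]
  have comm : ∀ x : M2, xᴴ * h * x = h → xᴴ * h' * x = h' → C * x = x * C := by
    intro x h1 h2
    have hux : IsUnit (xᴴ * h).det := by
      have h3 : (xᴴ * h).det * x.det = h.det := by rw [← det_mul, h1]
      rw [← h3] at hu
      exact isUnit_of_mul_isUnit_left hu
    have h3 : xᴴ * h * (C * x) = xᴴ * h * (x * C) := by
      calc xᴴ * h * (C * x) = xᴴ * (h * C) * x := by simp only [mul_assoc]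
        _ = h' := by rw [hhC, h2]
        _ = h * C := hhC.symm
        _ = (xᴴ * h * x) * C := by rw [h1]
        _ = xᴴ * h * (x * C) := by simp only [mul_assoc]
    calc C * x = (xᴴ * h)⁻¹ * (xᴴ * h * (C * x)) := by
          rw [← mul_assoc (xᴴ * h)⁻¹, Matrix.nonsing_inv_mul _ hux, one_mul]
      _ = (xᴴ * h)⁻¹ * (xᴴ * h * (x * C)) := by rw [h3]
      _ = x * C := by rw [← mul_assoc (xᴴ * h)⁻¹, Matrix.nonsing_inv_mul _ hux, one_mul]
  obtain ⟨z, -, hz, -⟩ := PWT.exists_eigenvalues C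
  refine ⟨z, ?_⟩
  have hz' : (C - z • (1 : M2)).det = 0 := by
    rw [Polynomial.IsRoot, Matrix.eval_charpoly] at hz
    have h1 : C - z • (1 : M2) = -(scalar (Fin 2) z - C) := by
      rw [neg_sub]
      congr 1
      ext i j
      simp [Matrix.scalar_apply, Matrix.one_apply, Matrix.diagonal_apply]
    rw [h1, Matrix.det_neg, hz, mul_zero]
  obtain ⟨v, hv, hv'⟩ := Matrix.exists_mulVec_eq_zero_iff.2 hz'
  by_cases hX : C - z • (1 : M2) = 0
  · rw [← hhC, sub_eq_zero.1 hX, mul_smul_comm, mul_one]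
  · exfalso
    have eig : ∀ x : M2, C * x = x * C → EigV v x := by
      intro x hx
      have h1 : (C - z • (1 : M2)) *ᵥ (x *ᵥ v) = 0 := by
        have h2 : (C - z • (1 : M2)) * x = x * (C - z • (1 : M2)) := by
          rw [sub_mul, mul_sub, hx, smul_mul_assoc, one_mul, mul_smul_comm, mul_one]
        rw [Matrix.mulVec_mulVec, h2, ← Matrix.mulVec_mulVec, hv', Matrix.mulVec_zero]
      exact ker_line hX hv hv' h1
    exact hno v hv (eig a (comm a ha ha')) (eig b (comm b hb hb'))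

/-- The eigenvalues of an isometry have modulus one. -/
theorem norm_eigenvalue {h a : M2} (hh : h.PosDef) (ha : aᴴ * h * a = h) {z : ℂ}
    (hz : a.charpoly.IsRoot z) : ‖z‖ = 1 := by
  have hz' : (a - z • (1 : M2)).det = 0 := by
    rw [Polynomial.IsRoot, Matrix.eval_charpoly] at hz
    have h1 : a - z • (1 : M2) = -(scalar (Fin 2) z - a) := by
      rw [neg_sub]
      congr 1
      ext i j
      simp [Matrix.scalar_apply, Matrix.one_apply, Matrix.diagonal_apply]
    rw [h1, Matrix.det_neg, hz, mul_zero]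
  obtain ⟨v, hv, hv'⟩ := Matrix.exists_mulVec_eq_zero_iff.2 hz'
  have hav : a *ᵥ v = z • v := by
    rw [Matrix.sub_mulVec, Matrix.smul_mulVec, Matrix.one_mulVec, sub_eq_zero] at hv'
    exact hv'
  have h1 : star v ⬝ᵥ (h *ᵥ v) = star z * z * (star v ⬝ᵥ (h *ᵥ v)) := by
    have h2 : star v ⬝ᵥ ((aᴴ * h * a) *ᵥ v) = star (a *ᵥ v) ⬝ᵥ (h *ᵥ (a *ᵥ v)) := by
      rw [← Matrix.mulVec_mulVec, ← Matrix.mulVec_mulVec, Matrix.dotProduct_mulVec,
        Matrix.star_mulVec]
    rw [ha, hav] at h2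
    refine h2.trans ?_
    rw [Matrix.mulVec_smul, star_smul, smul_dotProduct, dotProduct_smul, smul_eq_mul,
      smul_eq_mul, mul_assoc]
  have h3 : star v ⬝ᵥ (h *ᵥ v) ≠ 0 := by
    have h4 := hh.dotProduct_mulVec_pos hv
    exact h4.ne'
  have h4 : star z * z = 1 := by
    have h5 : (star z * z - 1) * (star v ⬝ᵥ (h *ᵥ v)) = 0 := by
      rw [sub_mul, one_mul, ← h1, sub_self]
    exact sub_eq_zero.1 ((mul_eq_zero.1 h5).resolve_right h3)
  have h5 : ((‖z‖ ^ 2 : ℝ) : ℂ) = 1 := by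
    rw [← h4]
    have := Complex.conj_mul' z
    push_cast
    exact this.symm
  have h6 : ‖z‖ ^ 2 = 1 := by exact_mod_cast h5
  nlinarith [norm_nonneg z, sq_nonneg (‖z‖ - 1), sq_nonneg (‖z‖ + 1)]

variable {G : Type*} [Group G]

/-- A group is unitary if its generators are contained in finite subgroups which have an
irreducible pair in common. -/
theorem unitary {ι : Type*} (g : ι → G) (hg : Subgroup.closure (Set.range g) = ⊤)
    (ρ : G →* GL (Fin 2) ℂ) (i j : ι)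
    (hno : ∀ v, v ≠ 0 → EigV v (ρ (g i) : M2) → EigV v (ρ (g j) : M2) → False)
    (hfin : ∀ k, ∃ Γ : Subgroup (GL (Fin 2) ℂ), Finite Γ ∧ ρ (g i) ∈ Γ ∧ ρ (g j) ∈ Γ ∧ ρ (g k) ∈ Γ)
    (x : G) {z : ℂ} (hz : (ρ x : M2).charpoly.IsRoot z) : ‖z‖ = 1 := by
  obtain ⟨Γ, hΓ, hi, hj, -⟩ := hfin i
  obtain ⟨h, hh, hinv⟩ := exists_form Γ
  have hgen : ∀ k, (ρ (g k) : M2)ᴴ * h * (ρ (g k) : M2) = h := by
    intro k
    obtain ⟨Γ', hΓ', hi', hj', hk'⟩ := hfin k
    obtain ⟨h', hh', hinv'⟩ := exists_form Γ'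
    obtain ⟨c, hc⟩ := form_unique hno hh (hinv _ hi) (hinv _ hj) (hinv' _ hi') (hinv' _ hj')
    have hc0 : c ≠ 0 := by
      rintro rfl
      rw [zero_smul] at hc
      have h1 := (Matrix.isUnit_iff_isUnit_det _).1 hh'.isUnit
      rw [hc, Matrix.det_zero] at h1
      exact not_isUnit_zero h1
    have h1 := hinv' _ hk'
    rw [hc, mul_smul_comm, smul_mul_assoc] at h1
    exact smul_right_injective _ hc0 h1
  have hall : ∀ x : G, (ρ x : M2)ᴴ * h * (ρ x : M2) = h := by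
    intro x
    have hx : x ∈ Subgroup.closure (Set.range g) := by rw [hg]; exact Subgroup.mem_top x
    induction hx using Subgroup.closure_induction with
    | mem y hy =>
      obtain ⟨k, rfl⟩ := hy
      exact hgen k
    | one => rw [map_one, Units.val_one, conjTranspose_one, one_mul, mul_one]
    | mul y w _ _ hy hw =>
      rw [map_mul, Units.val_mul, conjTranspose_mul]
      calc (ρ w : M2)ᴴ * (ρ y : M2)ᴴ * h * ((ρ y : M2) * (ρ w : M2))
          = (ρ w : M2)ᴴ * ((ρ y : M2)ᴴ * h * (ρ y : M2)) * (ρ w : M2) := by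
            simp only [mul_assoc]
        _ = h := by rw [hy, hw]
    | inv y _ hy =>
      have e1 : (ρ y : M2) * (ρ y⁻¹ : M2) = 1 := by
        rw [← Units.val_mul, ← map_mul, mul_inv_cancel, map_one, Units.val_one]
      have e2 : (ρ y⁻¹ : M2)ᴴ * (ρ y : M2)ᴴ = 1 := by
        rw [← conjTranspose_mul, e1, conjTranspose_one]
      calc (ρ y⁻¹ : M2)ᴴ * h * (ρ y⁻¹ : M2)
          = (ρ y⁻¹ : M2)ᴴ * ((ρ y : M2)ᴴ * h * (ρ y : M2)) * (ρ y⁻¹ : M2) := by rw [hy]
        _ = ((ρ y⁻¹ : M2)ᴴ * (ρ y : M2)ᴴ) * h * ((ρ y : M2) * (ρ y⁻¹ : M2)) := by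
            simp only [mul_assoc]
        _ = h := by rw [e1, e2, one_mul, mul_one]
  exact norm_eigenvalue hh (hall x) hz

end Pool.Agent.H2G
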