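import Pool.Agent.H2G.Int
import Pool.Agent.H2G.Uni
import Pool.Agent.HZ.Kol
import Pool.Agent.Helper84.AutC

/-!
# The gluing theorem

If all elements of the subgroups generated by three of the generators have only roots of unity as
eigenvalues then so have all elements of the group.
-/

set_option autoImplicit false

namespace Pool.Agent.H2G

open Matrix Pool.Agent.H2R

variable {G : Type*} [Group G]

/-- A finitely generated subgroup without a common eigenvector is mapped to a finite group. -/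
theorem finite_of_irr (s : Set G) (hs : s.Finite) (ρ : G →* GL (Fin 2) ℂ)
    (hq : ∀ x ∈ Subgroup.closure s, Quasi (ρ x : M2))
    (hno : ∀ v, v ≠ 0 → (∀ x ∈ Subgroup.closure s, EigV v (ρ x : M2)) → False) :
    Finite ((Subgroup.closure s).map ρ) := by
  have hfg : ((Subgroup.closure s).map ρ).FG := by
    rw [Subgroup.fg_iff]
    exact ⟨ρ '' s, (MonoidHom.map_closure ρ s).symm, hs.image _⟩
  set S := Subgroup.closure s with hSdef
  refine HZ.finite_of_roots (S.map ρ) (S.map ρ) hfg le_rfl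
    (fun γ hγ n hn => (S.map ρ).mul_mem ((S.map ρ).mul_mem hγ hn) ((S.map ρ).inv_mem hγ)) ?_ ?_
  · rintro _ ⟨x, hx, rfl⟩ z hz
    obtain ⟨k, hk, h⟩ := hq x hx z hz
    exact ⟨k, hk, h⟩
  · intro W hW
    by_cases hbot : W = ⊥
    · subst hbot
      exact ⟨⊤, fun _ _ _ _ => Submodule.mem_top, isCompl_bot_top⟩
    by_cases htop : W = ⊤
    · subst htop
      refine ⟨⊥, fun γ _ v hv => ?_, isCompl_top_bot⟩
      rw [(Submodule.mem_bot ℂ).1 hv, Matrix.mulVec_zero]
      exact Submodule.zero_mem _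
    exfalso
    have hW1 : Module.finrank ℂ W = 1 := by
      have h1 := Submodule.finrank_lt htop
      rw [Module.finrank_fin_fun] at h1
      have h2 : Module.finrank ℂ W ≠ 0 := fun h => hbot (Submodule.finrank_eq_zero.1 h)
      omega
    obtain ⟨w, hw0, hw⟩ := finrank_eq_one_iff'.1 hW1
    have hv : (w : Fin 2 → ℂ) ≠ 0 := fun h0 => hw0 (Subtype.ext h0)
    refine hno w hv fun x hx => ?_
    obtain ⟨m, hm⟩ := hw ⟨(ρ x : M2) *ᵥ w, hW (ρ x) ⟨x, hx, rfl⟩ w w.2⟩
    exact ⟨m, (congrArg Subtype.val hm).symm⟩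

theorem mem3 {ι : Type*} (g : ι → G) (i j k : ι) :
    g i ∈ Subgroup.closure {g i, g j, g k} ∧ g j ∈ Subgroup.closure {g i, g j, g k} ∧
      g k ∈ Subgroup.closure {g i, g j, g k} :=
  ⟨Subgroup.subset_closure (by simp), Subgroup.subset_closure (by simp),
    Subgroup.subset_closure (by simp)⟩

/-- The conjugate of a matrix representation by an automorphism of the field. -/
noncomputable def tw (τ : ℂ ≃+* ℂ) (ρ : G →* GL (Fin 2) ℂ) : G →* GL (Fin 2) ℂ :=
  (Matrix.GeneralLinearGroup.map (τ : ℂ →+* ℂ)).comp ρ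

theorem tw_apply (τ : ℂ ≃+* ℂ) (ρ : G →* GL (Fin 2) ℂ) (x : G) :
    (tw τ ρ x : M2) = (ρ x : M2).map τ := rfl

theorem eigV_tw {τ : ℂ ≃+* ℂ} {A : M2} {v : Fin 2 → ℂ} (h : EigV v (A.map τ)) :
    EigV (fun i => τ.symm (v i)) A := by
  obtain ⟨l, hl⟩ := h
  refine ⟨τ.symm l, ?_⟩
  funext i
  have h1 := congrFun hl i
  simp only [Matrix.mulVec, dotProduct, Matrix.map_apply, Pi.smul_apply, smul_eq_mul] at h1 ⊢
  apply τ.injective
  rw [map_sum, map_mul, RingEquiv.apply_symm_apply, RingEquiv.apply_symm_apply, ← h1]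
  refine Finset.sum_congr rfl fun j _ => ?_
  rw [map_mul, RingEquiv.apply_symm_apply]

theorem root_tw {τ : ℂ ≃+* ℂ} {A : M2} {z : ℂ} (h : A.charpoly.IsRoot z) :
    (A.map τ).charpoly.IsRoot (τ z) := by
  have h1 : (A.map τ) = A.map (τ : ℂ →+* ℂ) := rfl
  rw [h1, Matrix.charpoly_map]
  exact Polynomial.IsRoot.map h

theorem exists_word {m : ℕ} (g : Fin m → G) (hg : Subgroup.closure (Set.range g) = ⊤) (x : G) :
    ∃ l : List G, (∀ y ∈ l, ∃ i, y = g i ∨ y = (g i)⁻¹) ∧ l.prod = x := by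
  have hx : x ∈ (Subgroup.closure (Set.range g)).toSubmonoid := by
    rw [hg]
    exact Submonoid.mem_top x
  rw [Subgroup.closure_toSubmonoid] at hx
  obtain ⟨l, hl, hp⟩ := Submonoid.exists_list_of_mem_closure hx
  refine ⟨l, fun y hy => ?_, hp⟩
  rcases hl y hy with ⟨i, hi⟩ | ⟨i, hi⟩
  · exact ⟨i, Or.inl hi.symm⟩
  · exact ⟨i, Or.inr (inv_eq_iff_eq_inv.1 (by rw [hi]))⟩

/-- All traces are algebraic integers. -/
theorem int_trace {m : ℕ} (g : Fin m → G) (hg : Subgroup.closure (Set.range g) = ⊤)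
    (ρ : G →* GL (Fin 2) ℂ)
    (h3 : ∀ i j k, ∀ x ∈ Subgroup.closure {g i, g j, g k}, Quasi (ρ x : M2)) (x : G) :
    IsIntegral ℤ (ρ x : M2).trace ∧ IsIntegral ℤ (ρ x : M2).det := by
  have hdet : ∀ y : G, IsIntegral ℤ (ρ y : M2).det := fun y =>
    isIntegral_RU (det_RU g ρ hg (fun i => h3 i i i _ (mem3 g i i i).1) y)
  refine ⟨?_, hdet x⟩
  obtain ⟨l, hl, rfl⟩ := exists_word g hg x
  refine int_list {y | ∃ i, y = g i ∨ y = (g i)⁻¹} ρ hdet ?_ l.length l rfl hl
  intro l hl hS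
  have hm : ∀ (S : Subgroup G) (y : G) (i : Fin m), (y = g i ∨ y = (g i)⁻¹) → g i ∈ S → y ∈ S := by
    rintro S y i (rfl | rfl) h
    · exact h
    · exact S.inv_mem h
  match l, hl, hS with
  | [], _, _ =>
    rw [List.prod_nil, map_one, Units.val_one, Matrix.trace_one]
    exact isIntegral_algebraMap (R := ℤ) (A := ℂ) (x := 2) |> fun h => by simpa using h
  | [a], _, hS =>
    obtain ⟨i, hi⟩ := hS a (by simp)
    rw [List.prod_singleton]
    exact (Quasi.int (h3 i i i _ (hm _ _ i hi (mem3 g i i i).1))).1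
  | [a, b], _, hS =>
    obtain ⟨i, hi⟩ := hS a (by simp)
    obtain ⟨j, hj⟩ := hS b (by simp)
    have hmem := mem3 g i j j
    refine (Quasi.int (h3 i j j _ ?_)).1
    rw [List.prod_cons, List.prod_singleton]
    exact Subgroup.mul_mem _ (hm _ _ i hi hmem.1) (hm _ _ j hj hmem.2.1)
  | [a, b, c], _, hS =>
    obtain ⟨i, hi⟩ := hS a (by simp)
    obtain ⟨j, hj⟩ := hS b (by simp)
    obtain ⟨k, hk⟩ := hS c (by simp)
    have hmem := mem3 g i j k
    refine (Quasi.int (h3 i j k _ ?_)).1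
    rw [List.prod_cons, List.prod_cons, List.prod_singleton]
    exact Subgroup.mul_mem _ (hm _ _ i hi hmem.1)
      (Subgroup.mul_mem _ (hm _ _ j hj hmem.2.1) (hm _ _ k hk hmem.2.2))
  | _ :: _ :: _ :: _ :: _, hl, _ =>
    simp only [List.length_cons] at hl
    omega

/-- The irreducible case. -/
theorem case_irr {m : ℕ} (g : Fin m → G) (hg : Subgroup.closure (Set.range g) = ⊤)
    (ρ : G →* GL (Fin 2) ℂ)
    (h3 : ∀ i j k, ∀ x ∈ Subgroup.closure {g i, g j, g k}, Quasi (ρ x : M2)) (i j : Fin m)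
    (hno : ∀ v, v ≠ 0 → EigV v (ρ (g i) : M2) → EigV v (ρ (g j) : M2) → False) (x : G) :
    Quasi (ρ x : M2) := by
  intro z hz
  obtain ⟨htr, hdet⟩ := int_trace g hg ρ h3 x
  have hint : IsIntegral ℤ z := isIntegral_quad htr hdet (root_eq hz)
  -- the modulus at all places
  have hnorm : ∀ τ : ℂ ≃+* ℂ, ‖τ z‖ = 1 := by
    intro τ
    have hz' : (tw τ ρ x : M2).charpoly.IsRoot (τ z) := root_tw hz
    refine unitary g hg (tw τ ρ) i j ?_ ?_ x hz'
    · intro v hv h1 h2
      refine hno (fun i => τ.symm (v i)) ?_ (eigV_tw h1) (eigV_tw h2)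
      intro h0
      apply hv
      funext i
      have h4 := congrFun h0 i
      simp only [Pi.zero_apply, map_eq_zero_iff τ.symm τ.symm.injective] at h4
      exact h4
    · intro k
      have hfin : Finite ((Subgroup.closure {g i, g j, g k}).map ρ) :=
        finite_of_irr _ (by simp) ρ (h3 i j k) fun v hv h =>
          hno v hv (h _ (mem3 g i j k).1) (h _ (mem3 g i j k).2.1)
      refine ⟨(Subgroup.closure {g i, g j, g k}).map (tw τ ρ), ?_,
        ⟨_, (mem3 g i j k).1, rfl⟩, ⟨_, (mem3 g i j k).2.1, rfl⟩, ⟨_, (mem3 g i j k).2.2, rfl⟩⟩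
      have h1 : (Subgroup.closure {g i, g j, g k}).map (tw τ ρ) =
          ((Subgroup.closure {g i, g j, g k}).map ρ).map
            (Matrix.GeneralLinearGroup.map (τ : ℂ →+* ℂ)) := by
        rw [Subgroup.map_map]
        rfl
      rw [h1]
      have h2 : ((((Subgroup.closure {g i, g j, g k}).map ρ).map
          (Matrix.GeneralLinearGroup.map (τ : ℂ →+* ℂ)) : Subgroup (GL (Fin 2) ℂ)) :
          Set (GL (Fin 2) ℂ)).Finite := by
        rw [Subgroup.coe_map]
        exact Set.Finite.image _ (Set.toFinite _)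
      exact h2.to_subtype
  -- Kronecker
  have hintQ : IsIntegral ℚ z := hint.tower_top
  let K : IntermediateField ℚ ℂ := IntermediateField.adjoin ℚ {z}
  have hfd : FiniteDimensional ℚ K := IntermediateField.adjoin.finiteDimensional hintQ
  have hnf : NumberField K := ⟨⟩
  have hK : (z : ℂ) ∈ K := IntermediateField.mem_adjoin_simple_self ℚ z
  have hzK : IsIntegral ℤ (⟨z, hK⟩ : K) := by
    obtain ⟨p, hp, hp'⟩ := hint
    refine ⟨p, hp, ?_⟩
    apply Subtype.val_injective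
    have e : Polynomial.eval₂ (algebraMap ℤ ℂ) z p =
        K.val.toRingHom (Polynomial.eval₂ (algebraMap ℤ K) ⟨z, hK⟩ p) := by
      rw [Polynomial.hom_eval₂]
      congr 1
    rw [hp'] at e
    exact e.symm
  obtain ⟨n, hn, h⟩ := NumberField.Embeddings.pow_eq_one_of_norm_eq_one K ℂ hzK fun φ => by
    obtain ⟨τ, hτ⟩ := Helper84.exists_aut K.val.toRingHom φ
    rw [← hτ]
    exact hnorm τ
  exact ⟨n, hn, congrArg Subtype.val h⟩

end Pool.Agent.H2G
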