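import Pool.Agent.H2R.Virt

/-!
# Integrality of the traces of all words (matrices of size two)
-/

set_option autoImplicit false

namespace Pool.Agent.H2G

open Matrix Pool.Agent.H2R

/-- the sum of the two roots -/
noncomputable def frP (A B C : M2) : ℂ :=
  A.trace * (B * C).trace + B.trace * (A * C).trace + C.trace * (A * B).trace -
    A.trace * B.trace * C.trace

/-- the product of the two roots -/
noncomputable def frQ (A B C : M2) : ℂ :=
  A.trace ^ 2 * (B.det * C.det) + B.trace ^ 2 * (A.det * C.det) + C.trace ^ 2 * (A.det * B.det) +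
    (A * B).trace ^ 2 * C.det + (B * C).trace ^ 2 * A.det + (A * C).trace ^ 2 * B.det -
    A.trace * B.trace * (A * B).trace * C.det - B.trace * C.trace * (B * C).trace * A.det -
    A.trace * C.trace * (A * C).trace * B.det + (A * B).trace * (B * C).trace * (A * C).trace -
    4 * (A.det * B.det * C.det)

/-- Fricke's relation. -/
theorem fricke (A B C : M2) :
    (A * B * C).trace ^ 2 - frP A B C * (A * B * C).trace + frQ A B C = 0 := by
  unfold frP frQ
  simp only [Matrix.trace_fin_two, Matrix.mul_apply, Fin.sum_univ_two, Matrix.det_fin_two]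
  ring

theorem isIntegral_quad {x P Q : ℂ} (hP : IsIntegral ℤ P) (hQ : IsIntegral ℤ Q)
    (h : x ^ 2 - P * x + Q = 0) : IsIntegral ℤ x := by
  have h1 : IsIntegral (integralClosure ℤ ℂ) x := by
    refine ⟨Polynomial.X ^ 2 - Polynomial.C (⟨P, hP⟩ : integralClosure ℤ ℂ) * Polynomial.X +
      Polynomial.C ⟨Q, hQ⟩, ?_, ?_⟩
    · monicity!
    · rw [Polynomial.eval₂_add, Polynomial.eval₂_sub, Polynomial.eval₂_mul, Polynomial.eval₂_pow,
        Polynomial.eval₂_X, Polynomial.eval₂_C, Polynomial.eval₂_C]
      exact h
  exact isIntegral_trans x h1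

theorem isIntegral_RU {z : ℂ} (h : RU z) : IsIntegral ℤ z := by
  obtain ⟨k, hk, hz⟩ := h
  exact IsIntegral.of_pow hk (by rw [hz]; exact isIntegral_one)

theorem Quasi.int {A : M2} (h : Quasi A) : IsIntegral ℤ A.trace ∧ IsIntegral ℤ A.det := by
  obtain ⟨z, w, hz, hw, ht, hd⟩ := PWT.exists_eigenvalues A
  rw [ht, hd]
  exact ⟨(isIntegral_RU (h z hz)).add (isIntegral_RU (h w hw)),
    (isIntegral_RU (h z hz)).mul (isIntegral_RU (h w hw))⟩

variable {G : Type*} [Group G]

/-- All traces are algebraic integers if those of the elements of the subgroups generated by three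
of the generators are. -/
theorem int_list (S : Set G) (ρ : G →* GL (Fin 2) ℂ) (hd : ∀ x, IsIntegral ℤ (ρ x : M2).det)
    (h3 : ∀ l : List G, l.length ≤ 3 → (∀ y ∈ l, y ∈ S) → IsIntegral ℤ (ρ l.prod : M2).trace) :
    ∀ (n : ℕ) (l : List G), l.length = n → (∀ y ∈ l, y ∈ S) →
      IsIntegral ℤ (ρ l.prod : M2).trace := by
  intro n
  induction n using Nat.strong_induction_on with
  | _ n ih =>
    intro l hl hS
    rcases Nat.lt_or_ge 3 n with h | h
    · match l, hl, hS with
      | [], hl, _ =>
        rw [List.length_nil] at hl
        omega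
      | [_], hl, _ =>
        rw [List.length_singleton] at hl
        omega
      | a :: b :: c, hl, hS =>
        rw [List.length_cons, List.length_cons] at hl
        have ha : a ∈ S := hS a (by simp)
        have hb : b ∈ S := hS b (by simp)
        have hc : ∀ y ∈ c, y ∈ S := fun y hy => hS y (by simp [hy])
        have e1 := ih 1 (by omega) [a] rfl (by simpa using ha)
        have e2 := ih 1 (by omega) [b] rfl (by simpa using hb)
        have e3 := ih c.length (by omega) c rfl hc
        have e4 := ih 2 (by omega) [a, b] rfl (by
          intro y hy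
          simp only [List.mem_cons, List.not_mem_nil, or_false] at hy
          rcases hy with rfl | rfl
          · exact ha
          · exact hb)
        have e5 := ih (c.length + 1) (by omega) (b :: c) (List.length_cons ..) (by
          intro y hy
          rcases List.mem_cons.1 hy with rfl | hy
          · exact hb
          · exact hc y hy)
        have e6 := ih (c.length + 1) (by omega) (a :: c) (List.length_cons ..) (by
          intro y hy
          rcases List.mem_cons.1 hy with rfl | hy
          · exact ha
          · exact hc y hy)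
        simp only [List.prod_cons, List.prod_nil, mul_one, map_mul, Units.val_mul] at e1 e2 e3 e4
        simp only [List.prod_cons, map_mul, Units.val_mul] at e5 e6 ⊢
        have d1 := hd a
        have d2 := hd b
        have d3 := hd c.prod
        have hP : IsIntegral ℤ (frP (ρ a : M2) (ρ b : M2) (ρ c.prod : M2)) := by
          unfold frP
          exact (((e1.mul e5).add (e2.mul e6)).add (e3.mul e4)).sub ((e1.mul e2).mul e3)
        have h4 : IsIntegral ℤ (4 : ℂ) := by
          have := isIntegral_algebraMap (R := ℤ) (A := ℂ) (x := 4)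
          simpa using this
        have hQ : IsIntegral ℤ (frQ (ρ a : M2) (ρ b : M2) (ρ c.prod : M2)) := by
          unfold frQ
          exact ((((((((((((e1.pow 2).mul (d2.mul d3)).add ((e2.pow 2).mul (d1.mul d3))).add
            ((e3.pow 2).mul (d1.mul d2))).add ((e4.pow 2).mul d3)).add ((e5.pow 2).mul d1)).add
            ((e6.pow 2).mul d2)).sub (((e1.mul e2).mul e4).mul d3)).sub
            (((e2.mul e3).mul e5).mul d1)).sub (((e1.mul e3).mul e6).mul d2)).add
            ((e4.mul e5).mul e6)).sub (h4.mul ((d1.mul d2).mul d3)))
        have key := isIntegral_quad hP hQ (fricke _ _ _)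
        rw [mul_assoc] at key
        exact key
    · exact h3 l (by omega) hS

end Pool.Agent.H2G
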