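import Pool.Agent.H2G.Glue

/-!
# The gluing theorem: reducible pairs, conclusion
-/

set_option autoImplicit false

namespace Pool.Agent.H2G

open Matrix Pool.Agent.H2R

variable {G : Type*} [Group G]

theorem one_add_pow {N : M2} (h : N ^ 2 = 0) (n : ℕ) : (1 + N) ^ n = 1 + (n : ℂ) • N := by
  induction n with
  | zero => simp
  | succ n ih =>
    have h2 : N * N = 0 := by rw [← pow_two]; exact h
    rw [pow_succ, ih, mul_add, mul_one, add_mul, one_mul, smul_mul_assoc, h2, smul_zero, add_zero]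
    push_cast
    rw [add_smul, one_smul]
    abel

/-- Elements of a finite group with a common eigenvector commute. -/
theorem comm_of_finite (Γ : Subgroup (GL (Fin 2) ℂ)) [Finite Γ] {a b : GL (Fin 2) ℂ} (ha : a ∈ Γ)
    (hb : b ∈ Γ) {v : Fin 2 → ℂ} (hv : v ≠ 0) (h1 : EigV v (a : M2)) (h2 : EigV v (b : M2)) :
    a * b = b * a := by
  obtain ⟨α, hα⟩ := h1
  obtain ⟨β, hβ⟩ := h2
  set c : GL (Fin 2) ℂ := a * b * (b * a)⁻¹ with hc
  have hcΓ : c ∈ Γ := Γ.mul_mem (Γ.mul_mem ha hb) (Γ.inv_mem (Γ.mul_mem hb ha))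
  have hcm : c * (b * a) = a * b := by rw [hc, inv_mul_cancel_right]
  have hcM : (c : M2) * ((b : M2) * (a : M2)) = (a : M2) * (b : M2) := by
    rw [← Units.val_mul, ← Units.val_mul, hcm, Units.val_mul]
  have hba : ((b : M2) * (a : M2)) *ᵥ v = (α * β) • v := by
    rw [← Matrix.mulVec_mulVec, hα, Matrix.mulVec_smul, hβ, smul_smul]
  have hab : ((a : M2) * (b : M2)) *ᵥ v = (α * β) • v := by
    rw [← Matrix.mulVec_mulVec, hβ, Matrix.mulVec_smul, hα, smul_smul, mul_comm]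
  have hne : α * β ≠ 0 := by
    intro h0
    rw [h0, zero_smul] at hba
    have h3 : v = 0 := by
      have h4 : (((b * a)⁻¹ : GL (Fin 2) ℂ) : M2) *ᵥ (((b : M2) * (a : M2)) *ᵥ v) = v := by
        rw [Matrix.mulVec_mulVec, ← Units.val_mul, ← Units.val_mul, inv_mul_cancel, Units.val_one,
          Matrix.one_mulVec]
      rw [← h4, hba, Matrix.mulVec_zero]
    exact hv h3
  have hcv : (c : M2) *ᵥ v = (1 : ℂ) • v := by
    have h3 : (c : M2) *ᵥ ((α * β) • v) = (α * β) • v := by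
      rw [← hba, Matrix.mulVec_mulVec, hcM, hab, hba]
    rw [Matrix.mulVec_smul] at h3
    rw [one_smul]
    exact smul_right_injective _ hne h3
  have hdet : (c : M2).det = 1 := by
    have h3 : (c : M2).det * ((b : M2).det * (a : M2).det) = (a : M2).det * (b : M2).det := by
      rw [← Matrix.det_mul, ← Matrix.det_mul, ← Matrix.det_mul, hcM]
    have h4 : (a : M2).det * (b : M2).det ≠ 0 := mul_ne_zero
      (isUnit_iff_ne_zero.1 ((Matrix.isUnit_iff_isUnit_det _).1 a.isUnit))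
      (isUnit_iff_ne_zero.1 ((Matrix.isUnit_iff_isUnit_det _).1 b.isUnit))
    rw [mul_comm (b : M2).det] at h3
    exact mul_right_cancel₀ h4 (by rw [h3, one_mul])
  have htr : (c : M2).trace = 2 := by
    have h3 := root_eq (isRoot_of_eigV hv hcv)
    rw [hdet] at h3
    linear_combination -h3
  have hsq := sub_one_sq htr hdet
  obtain ⟨n, hn, hcn⟩ : ∃ n : ℕ, 0 < n ∧ c ^ n = 1 := by
    have h3 : IsOfFinOrder (⟨c, hcΓ⟩ : Γ) := isOfFinOrder_of_finite _
    obtain ⟨n, hn, h4⟩ := isOfFinOrder_iff_pow_eq_one.1 h3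
    exact ⟨n, hn, congrArg Subtype.val h4⟩
  have h5 : ((c : M2)) ^ n = 1 := by rw [← Units.val_pow_eq_pow_val, hcn, Units.val_one]
  have h6 := one_add_pow hsq n
  rw [add_sub_cancel, h5] at h6
  have h7 : (n : ℂ) • ((c : M2) - 1) = 0 := by
    have := h6.symm
    rwa [add_eq_left] at this
  have h8 : (c : M2) - 1 = 0 :=
    (smul_eq_zero.1 h7).resolve_left (Nat.cast_ne_zero.2 hn.ne')
  have h9 : c = 1 := Units.ext (by rw [Units.val_one]; exact sub_eq_zero.1 h8)
  rw [← hcm, h9, one_mul]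

theorem exists_eigV (A : M2) : ∃ v, v ≠ 0 ∧ ∃ z : ℂ, A *ᵥ v = z • v ∧ (A - z • (1 : M2)) *ᵥ v = 0 := by
  obtain ⟨z, -, hz, -⟩ := PWT.exists_eigenvalues A
  have hz' : (A - z • (1 : M2)).det = 0 := by
    rw [Polynomial.IsRoot, Matrix.eval_charpoly] at hz
    have h1 : A - z • (1 : M2) = -(scalar (Fin 2) z - A) := by
      rw [neg_sub]
      congr 1
      ext i j
      simp [Matrix.scalar_apply, Matrix.one_apply, Matrix.diagonal_apply]
    rw [h1, Matrix.det_neg, hz, mul_zero]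
  obtain ⟨v, hv, hv'⟩ := Matrix.exists_mulVec_eq_zero_iff.2 hz'
  refine ⟨v, hv, z, ?_, hv'⟩
  rw [Matrix.sub_mulVec, Matrix.smul_mulVec, Matrix.one_mulVec, sub_eq_zero] at hv'
  exact hv'

theorem EigV.of_smul {A : M2} {v w : Fin 2 → ℂ} {l : ℂ} (hw : w ≠ 0) (h : w = l • v)
    (hA : EigV w A) : EigV v A := by
  have hl : l ≠ 0 := by
    rintro rfl
    rw [zero_smul] at h
    exact hw h
  obtain ⟨m, hm⟩ := hA
  refine ⟨m, ?_⟩
  rw [h, Matrix.mulVec_smul, smul_comm] at hm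
  exact smul_right_injective _ hl hm

theorem eigV_scalar (c : ℂ) (v : Fin 2 → ℂ) : EigV v (c • (1 : M2)) :=
  (EigV.one v).smul c

/-- A matrix with three eigenlines is scalar. -/
theorem two_lines {A : M2} {u v w : Fin 2 → ℂ} (hu : EigV u A) (hv : EigV v A) (hw : EigV w A)
    (huv : u 0 * v 1 - u 1 * v 0 ≠ 0) :
    (∃ c : ℂ, A = c • (1 : M2)) ∨ (∃ l : ℂ, w = l • u) ∨ ∃ l : ℂ, w = l • v := by
  obtain ⟨α, hα⟩ := hu
  obtain ⟨β, hβ⟩ := hv
  obtain ⟨γ, hγ⟩ := hw
  have u0 := congrFun hα 0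
  have u1 := congrFun hα 1
  have v0 := congrFun hβ 0
  have v1 := congrFun hβ 1
  simp only [Matrix.mulVec, dotProduct, Fin.sum_univ_two, Pi.smul_apply, smul_eq_mul] at u0 u1 v0 v1
  by_cases hαβ : α = β
  · left
    refine ⟨α, ?_⟩
    subst hαβ
    have k : ∀ r s : ℂ, r * u 0 + s * u 1 = 0 → r * v 0 + s * v 1 = 0 → r = 0 ∧ s = 0 := by
      intro r s h1 h2
      have e1 : (u 0 * v 1 - u 1 * v 0) * r = 0 := by linear_combination v 1 * h1 - u 1 * h2
      have e2 : (u 0 * v 1 - u 1 * v 0) * s = 0 := by linear_combination u 0 * h2 - v 0 * h1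
      exact ⟨(mul_eq_zero.1 e1).resolve_left huv, (mul_eq_zero.1 e2).resolve_left huv⟩
    obtain ⟨k1, k2⟩ := k (A 0 0 - α) (A 0 1) (by linear_combination u0) (by linear_combination v0)
    obtain ⟨k3, k4⟩ := k (A 1 0) (A 1 1 - α) (by linear_combination u1) (by linear_combination v1)
    ext i j
    fin_cases i <;> fin_cases j <;> simp <;> first | linear_combination k1 | linear_combination k2 | linear_combination k3 | linear_combination k4
  · right
    -- coordinates of `w`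
    set D := u 0 * v 1 - u 1 * v 0 with hD
    set x := (w 0 * v 1 - w 1 * v 0) / D with hx
    set y := (u 0 * w 1 - u 1 * w 0) / D with hy
    have hw' : w = x • u + y • v := by
      funext i
      have e : ∀ i : Fin 2, D * w i = (w 0 * v 1 - w 1 * v 0) * u i + (u 0 * w 1 - u 1 * w 0) * v i := by
        intro i
        fin_cases i
        · show D * w 0 = (w 0 * v 1 - w 1 * v 0) * u 0 + (u 0 * w 1 - u 1 * w 0) * v 0
          rw [hD]; ring
        · show D * w 1 = (w 0 * v 1 - w 1 * v 0) * u 1 + (u 0 * w 1 - u 1 * w 0) * v 1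
          rw [hD]; ring
      simp only [Pi.add_apply, Pi.smul_apply, smul_eq_mul]
      rw [hx, hy]
      field_simp
      linear_combination e i
    have h1 : (x * (α - γ)) • u + (y * (β - γ)) • v = 0 := by
      have h2 := hγ
      rw [hw', Matrix.mulVec_add, Matrix.mulVec_smul, Matrix.mulVec_smul, hα, hβ] at h2
      have h3 := sub_eq_zero.2 h2
      rw [← h3]
      module
    have h2 : x * (α - γ) = 0 ∧ y * (β - γ) = 0 := by
      have e0 := congrFun h1 0
      have e1 := congrFun h1 1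
      simp only [Pi.add_apply, Pi.smul_apply, smul_eq_mul, Pi.zero_apply] at e0 e1
      have f1 : D * (x * (α - γ)) = 0 := by rw [hD]; linear_combination v 1 * e0 - v 0 * e1
      have f2 : D * (y * (β - γ)) = 0 := by rw [hD]; linear_combination u 0 * e1 - u 1 * e0
      exact ⟨(mul_eq_zero.1 f1).resolve_left huv, (mul_eq_zero.1 f2).resolve_left huv⟩
    by_cases hx0 : x = 0
    · right
      exact ⟨y, by rw [hw', hx0, zero_smul, zero_add]⟩
    · left
      have h3 : α = γ := by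
        rcases mul_eq_zero.1 h2.1 with h | h
        · exact absurd h hx0
        · exact sub_eq_zero.1 h
      have h4 : y = 0 := by
        rcases mul_eq_zero.1 h2.2 with h | h
        · exact h
        · exact absurd (h3.trans (sub_eq_zero.1 h).symm) hαβ
      exact ⟨x, by rw [hw', h4, zero_smul, add_zero]⟩

/-- proportional vectors -/
theorem prop_of_cross {u v : Fin 2 → ℂ} (hu : u ≠ 0) (h : u 0 * v 1 - u 1 * v 0 = 0) :
    ∃ l : ℂ, v = l • u := by
  by_cases h0 : u 0 = 0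
  · have h1 : u 1 ≠ 0 := by
      intro h1
      apply hu
      funext i
      fin_cases i
      · exact h0
      · exact h1
    refine ⟨v 1 / u 1, ?_⟩
    funext i
    rw [h0, zero_mul, zero_sub, neg_eq_zero] at h
    have hv0 : v 0 = 0 := (mul_eq_zero.1 h).resolve_left h1
    fin_cases i
    · show v 0 = v 1 / u 1 * u 0
      rw [hv0, h0, mul_zero]
    · show v 1 = v 1 / u 1 * u 1
      rw [div_mul_cancel₀ _ h1]
  · refine ⟨v 0 / u 0, ?_⟩
    funext i
    fin_cases i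
    · show v 0 = v 0 / u 0 * u 0
      rw [div_mul_cancel₀ _ h0]
    · show v 1 = v 0 / u 0 * u 1
      field_simp
      linear_combination h

/-- Pairwise common eigenvectors give a common eigenvector of three generators. -/
theorem triple {m : ℕ} (g : Fin m → G) (ρ : G →* GL (Fin 2) ℂ)
    (h3 : ∀ i j k, ∀ x ∈ Subgroup.closure {g i, g j, g k}, Quasi (ρ x : M2))
    (hp : ∀ i j, ∃ v, v ≠ 0 ∧ EigV v (ρ (g i) : M2) ∧ EigV v (ρ (g j) : M2)) (i j k : Fin m) :
    ∃ v, v ≠ 0 ∧ EigV v (ρ (g i) : M2) ∧ EigV v (ρ (g j) : M2) ∧ EigV v (ρ (g k) : M2) := by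
  by_contra hno
  push Not at hno
  have hmem := mem3 g i j k
  have hfin : Finite ((Subgroup.closure {g i, g j, g k}).map ρ) :=
    finite_of_irr _ (by simp) ρ (h3 i j k) fun v hv h =>
      hno v hv (h _ hmem.1) (h _ hmem.2.1) (h _ hmem.2.2)
  have comm : ∀ a b, a ∈ Subgroup.closure {g i, g j, g k} → b ∈ Subgroup.closure {g i, g j, g k} →
      (∃ v, v ≠ 0 ∧ EigV v (ρ a : M2) ∧ EigV v (ρ b : M2)) →
      (ρ a : M2) * (ρ b : M2) = (ρ b : M2) * (ρ a : M2) := by
    rintro a b ha hb ⟨v, hv, h1, h2⟩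
    have h := comm_of_finite ((Subgroup.closure {g i, g j, g k}).map ρ)
      (Subgroup.mem_map_of_mem ρ ha) (Subgroup.mem_map_of_mem ρ hb) hv h1 h2
    rw [← Units.val_mul, h, Units.val_mul]
  obtain ⟨v, hv, z, hz, hz'⟩ := exists_eigV (ρ (g i) : M2)
  by_cases hX : (ρ (g i) : M2) - z • (1 : M2) = 0
  · obtain ⟨w, hw, h1, h2⟩ := hp j k
    refine hno w hw ?_ h1 h2
    rw [sub_eq_zero.1 hX]
    exact eigV_scalar z w
  · have eig : ∀ x : M2, (ρ (g i) : M2) * x = x * (ρ (g i) : M2) → EigV v x := by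
      intro x hx
      have h1 : ((ρ (g i) : M2) - z • (1 : M2)) *ᵥ (x *ᵥ v) = 0 := by
        have h2 : ((ρ (g i) : M2) - z • (1 : M2)) * x = x * ((ρ (g i) : M2) - z • (1 : M2)) := by
          rw [sub_mul, mul_sub, hx, smul_mul_assoc, one_mul, mul_smul_comm, mul_one]
        rw [Matrix.mulVec_mulVec, h2, ← Matrix.mulVec_mulVec, hz', Matrix.mulVec_zero]
      exact ker_line hX hv hz' h1
    exact hno v hv ⟨z, hz⟩ (eig _ (comm _ _ hmem.1 hmem.2.1 (hp i j)))
      (eig _ (comm _ _ hmem.1 hmem.2.2 (hp i k)))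

/-- Pairwise common eigenvectors give a common eigenvector of all generators. -/
theorem all_of_triples {m : ℕ} (g : Fin m → G) (ρ : G →* GL (Fin 2) ℂ)
    (ht : ∀ i j k, ∃ v, v ≠ 0 ∧ EigV v (ρ (g i) : M2) ∧ EigV v (ρ (g j) : M2) ∧
      EigV v (ρ (g k) : M2)) :
    ∃ v : Fin 2 → ℂ, v ≠ 0 ∧ ∀ i, EigV v (ρ (g i) : M2) := by
  by_cases hs : ∀ i, ∃ c : ℂ, (ρ (g i) : M2) = c • (1 : M2)
  · refine ⟨fun _ => 1, fun h => one_ne_zero (congrFun h 0), fun i => ?_⟩
    obtain ⟨c, hc⟩ := hs i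
    rw [hc]
    exact eigV_scalar c _
  push Not at hs
  obtain ⟨i, hi⟩ := hs
  obtain ⟨u, hu, z, hz, -⟩ := exists_eigV (ρ (g i) : M2)
  by_cases h1 : ∀ j, EigV u (ρ (g j) : M2)
  · exact ⟨u, hu, h1⟩
  push Not at h1
  obtain ⟨j, hj⟩ := h1
  obtain ⟨v, hv, hvi, hvj, -⟩ := ht i j j
  by_cases h2 : ∀ k, EigV v (ρ (g k) : M2)
  · exact ⟨v, hv, h2⟩
  push Not at h2
  obtain ⟨k, hk⟩ := h2
  obtain ⟨w, hw, hwi, hwj, hwk⟩ := ht i j k
  exfalso
  have huv : u 0 * v 1 - u 1 * v 0 ≠ 0 := by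
    intro h0
    obtain ⟨l, hl⟩ := prop_of_cross hu h0
    exact hj (EigV.of_smul hv hl hvj)
  rcases two_lines ⟨z, hz⟩ hvi hwi huv with ⟨c, hc⟩ | ⟨l, hl⟩ | ⟨l, hl⟩
  · exact hi c hc
  · exact hj (EigV.of_smul hw hl hwj)
  · exact hk (EigV.of_smul hw hl hwk)

/-- **The gluing theorem.** -/
theorem glue {m : ℕ} (g : Fin m → G) (hg : Subgroup.closure (Set.range g) = ⊤)
    (ρ : G →* GL (Fin 2) ℂ)
    (h3 : ∀ i j k, ∀ x ∈ Subgroup.closure {g i, g j, g k}, Quasi (ρ x : M2)) (x : G) :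
    Quasi (ρ x : M2) := by
  by_cases hp : ∀ i j, ∃ v, v ≠ 0 ∧ EigV v (ρ (g i) : M2) ∧ EigV v (ρ (g j) : M2)
  · obtain ⟨v, hv, h⟩ := all_of_triples g ρ (triple g ρ h3 hp)
    have hq0 : ∀ i, Quasi (ρ (g i) : M2) := fun i => h3 i i i _ (mem3 g i i i).1
    have hall : ∀ x : G, EigV v (ρ x : M2) := by
      intro x
      have hx : x ∈ Subgroup.closure (Set.range g) := by rw [hg]; exact Subgroup.mem_top x
      induction hx using Subgroup.closure_induction with
      | mem y hy =>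
        obtain ⟨i, rfl⟩ := hy
        exact h i
      | one => rw [map_one, Units.val_one]; exact EigV.one v
      | mul y w _ _ hy hw => rw [map_mul, Units.val_mul]; exact hy.mul hw
      | inv y _ hy =>
        refine EigV.inv hv ?_ hy
        rw [← Units.val_mul, ← map_mul, inv_mul_cancel, map_one, Units.val_one]
    obtain ⟨l, hl, hlx⟩ := eig_RU g ρ hg hq0 hv hall x
    exact quasi_of (isRoot_of_eigV hv hlx) hl (det_RU g ρ hg hq0 x)
  · push Not at hp
    obtain ⟨i, j, hno⟩ := hp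
    exact case_irr g hg ρ h3 i j (fun v hv h1 h2 => hno v hv h1 h2) x

end Pool.Agent.H2G
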