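import Pool.Agent.H2R.Virt

/-!
# From roots of unity to a finite image

If all eigenvalues of a representation of rank two are roots of unity and there is no common
eigenvector then the image is finite.
-/

set_option autoImplicit false

namespace Pool.Agent.H2G

open Matrix
open Pool.Agent.H2R (Quasi CRed RU EigV M2)

variable {G : Type*} [Group G] {V : Type*}

/-- the power of order `N` has trace two and determinant one -/
theorem trace_pow {A : M2} {N : ℕ} (hN : 0 < N) (h : ∀ z : ℂ, A.charpoly.IsRoot z → z ^ N = 1) :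
    (A ^ N).trace = 2 ∧ (A ^ N).det = 1 := by
  have hroot : ∀ u : ℂ, (A ^ N).charpoly.IsRoot u → u = 1 := by
    intro u hu
    rw [← Matrix.mem_spectrum_iff_isRoot_charpoly, spectrum.map_pow_of_pos A hN] at hu
    obtain ⟨z, hz, rfl⟩ := hu
    exact h z (Matrix.mem_spectrum_iff_isRoot_charpoly.1 hz)
  obtain ⟨u, v, hu, hv, ht, hd⟩ := PWT.exists_eigenvalues (A ^ N)
  rw [ht, hd, hroot u hu, hroot v hv]
  norm_num

theorem pow_unip {U : M2} (h : (U - 1) ^ 2 = 0) (k : ℕ) : U ^ k = 1 + (k : ℂ) • (U - 1) := by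
  induction k with
  | zero => rw [pow_zero, Nat.cast_zero, zero_smul, add_zero]
  | succ k ih =>
    have h1 : U = 1 + (U - 1) := by rw [add_sub_cancel]
    have h2 : U ^ (k + 1) = (1 + (k : ℂ) • (U - 1)) * (1 + (U - 1)) := by
      rw [pow_succ, ih, add_sub_cancel]
    rw [h2, mul_add, mul_one, add_mul, one_mul, smul_mul_assoc, ← pow_two, h, smul_zero, add_zero,
      add_assoc, Nat.cast_succ, add_smul, one_smul]

theorem mul_mul_self {X B : M2} (hd : X.det = 0) (ht : (X * B).trace = 0) : X * B * X = 0 := by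
  rw [Matrix.det_fin_two] at hd
  rw [Matrix.trace_fin_two] at ht
  simp only [Matrix.mul_apply, Fin.sum_univ_two] at ht
  ext i j
  rw [Matrix.zero_apply]
  simp only [Matrix.mul_apply, Fin.sum_univ_two]
  fin_cases i <;> fin_cases j <;> simp only [Fin.zero_eta, Fin.mk_one]
  · linear_combination X 0 0 * ht - B 1 1 * hd
  · linear_combination X 0 1 * ht + B 0 1 * hd
  · linear_combination X 1 0 * ht + B 1 0 * hd
  · linear_combination X 1 1 * ht - B 0 0 * hd

/-- If all eigenvalues are roots of unity and there is no common eigenvector then all matrices have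
finite order. -/
theorem finOrder_of_irr [Finite V] (c : V → G) (hc : Subgroup.closure (Set.range c) = ⊤)
    (ρ : G →* GL (Fin 2) ℂ) (hq : ∀ x, Quasi (ρ x : M2))
    (hirr : ¬ ∃ v : Fin 2 → ℂ, v ≠ 0 ∧ ∀ x, EigV v (ρ x : M2)) (x : G) :
    IsOfFinOrder (ρ x) := by
  obtain ⟨N, hN, h⟩ := PWT.exists_order c hc ρ
  obtain ⟨ht, hd⟩ := trace_pow (A := (ρ x : M2)) hN fun z hz => h x z hz (hq x z hz)
  set U : M2 := (ρ x : M2) ^ N with hU
  have h2 := H2R.sub_one_sq ht hd
  set X : M2 := U - 1 with hX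
  by_cases h0 : X = 0
  · refine isOfFinOrder_iff_pow_eq_one.2 ⟨N, hN, ?_⟩
    apply Units.ext
    rw [Units.val_pow_eq_pow_val, Units.val_one]
    exact sub_eq_zero.1 h0
  exfalso
  apply hirr
  have hXd : X.det = 0 := by
    have := congrArg Matrix.det h2
    rw [Matrix.det_pow, Matrix.det_zero] at this
    exact pow_eq_zero_iff two_ne_zero |>.1 this
  have htr : ∀ y, (X * (ρ y : M2)).trace = 0 := by
    intro y
    by_contra hne
    have hfin : {z : ℂ | ∃ w, z = (ρ w : M2).trace}.Finite := by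
      refine ((PWT.finite_roots hN).image2 (· + ·) (PWT.finite_roots hN)).subset ?_
      rintro _ ⟨w, rfl⟩
      obtain ⟨u, v, hu, hv, ht, -⟩ := PWT.exists_eigenvalues (ρ w : M2)
      exact ⟨u, h w u hu (hq w u hu), v, h w v hv (hq w v hv), ht.symm⟩
    have hval : ∀ k : ℕ, (ρ (x ^ (N * k) * y) : M2).trace =
        (ρ y : M2).trace + (k : ℂ) * (X * (ρ y : M2)).trace := by
      intro k
      rw [map_mul, map_pow, Units.val_mul, Units.val_pow_eq_pow_val, pow_mul, ← hU,
        pow_unip h2, add_mul, one_mul, Matrix.trace_add, smul_mul_assoc, Matrix.trace_smul,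
        smul_eq_mul]
    have hinj : Function.Injective fun k : ℕ => (ρ (x ^ (N * k) * y) : M2).trace := by
      intro k l hkl
      simp only [hval] at hkl
      exact_mod_cast mul_right_cancel₀ hne (add_left_cancel hkl)
    refine (Set.infinite_range_of_injective hinj) (hfin.subset ?_)
    rintro _ ⟨k, rfl⟩
    exact ⟨_, rfl⟩
  obtain ⟨w, hw⟩ : ∃ w, X *ᵥ w ≠ 0 := by
    by_contra hno
    push Not at hno
    apply h0
    apply Matrix.ext_of_mulVec_single
    intro i
    rw [hno, Matrix.zero_mulVec]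
  refine ⟨X *ᵥ w, hw, fun y => ?_⟩
  have h3 : X *ᵥ (X *ᵥ w) = 0 := by
    rw [Matrix.mulVec_mulVec, ← pow_two, h2, Matrix.zero_mulVec]
  have h4 : X *ᵥ ((ρ y : M2) *ᵥ (X *ᵥ w)) = 0 := by
    rw [Matrix.mulVec_mulVec, Matrix.mulVec_mulVec, mul_mul_self hXd (htr y),
      Matrix.zero_mulVec]
  exact H2R.ker_line h0 hw h3 h4

/-- **Finite image** from roots of unity and complete reducibility. -/
theorem finite_of_cred [Finite V] (c : V → G) (hc : Subgroup.closure (Set.range c) = ⊤)
    (ρ : G →* GL (Fin 2) ℂ) (hq : ∀ x, Quasi (ρ x : M2)) (hcr : CRed ρ) : Finite ρ.range := by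
  have hfg : (MonoidHom.range ρ).FG := by
    rw [Subgroup.fg_iff]
    refine ⟨ρ '' Set.range c, ?_, (Set.finite_range c).image _⟩
    rw [← MonoidHom.map_closure, hc, MonoidHom.range_eq_map]
  refine Helper12.Sc.fg_torsion_finite 2 ρ.range hfg ?_
  rintro _ ⟨x, rfl⟩
  by_cases hirr : ∃ v : Fin 2 → ℂ, v ≠ 0 ∧ ∀ x, EigV v (ρ x : M2)
  · obtain ⟨v, hv, he⟩ := hirr
    exact H2R.finOrder_of_cred ρ hv he hq hcr x
  · exact finOrder_of_irr c hc ρ hq hirr x

end Pool.Agent.H2G
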