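import Pool.Agent.H2G.QF
import Pool.Agent.H2G.Main
import Pool.Agent.SpQ.SpinChain
import Pool.Agent.SpQ.Three

/-!
# Representations of rank two and spin structures

A representation of rank two of a surface group whose values on the non-separating simple closed
curves with winding number zero have only roots of unity as eigenvalues.
-/

set_option autoImplicit false

namespace Pool.Agent.H2G

open Matrix
open Helper12.Sc Helper12.Sc.SurfaceGroup
open Pool.Agent.H2R (Quasi CRed M2 IsVanishing)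
open SpQ (IsSpinStructure)

/-- the standard generators -/
theorem closure_gens {g : ℕ} (φ : SurfaceGroup g ≃* SurfaceGroup g) :
    Subgroup.closure (Set.range fun j : Fin (g + g) =>
      Sum.elim (fun i => φ (a i)) (fun i => φ (b i)) (finSumFinEquiv.symm j)) = ⊤ := by
  rw [eq_top_iff]
  have h1 : (⊤ : Subgroup (SurfaceGroup g)) =
      (⊤ : Subgroup (SurfaceGroup g)).map φ.toMonoidHom := by
    rw [← MonoidHom.range_eq_map]
    exact (MonoidHom.range_eq_top.2 φ.surjective).symm
  rw [h1, ← PresentedGroup.closure_range_of, MonoidHom.map_closure, Subgroup.closure_le]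
  rintro _ ⟨_, ⟨⟨i, e⟩, rfl⟩, rfl⟩
  apply Subgroup.subset_closure
  cases e
  · exact ⟨finSumFinEquiv (Sum.inl i), by beta_reduce; rw [Equiv.symm_apply_apply]; rfl⟩
  · exact ⟨finSumFinEquiv (Sum.inr i), by beta_reduce; rw [Equiv.symm_apply_apply]; rfl⟩

/-- the main theorem for the subgroup which is generated by a chain -/
theorem of_chain {G : Type} [Group G] {n : ℕ} (hn : 4 ≤ n) (c : Fin n → G) (ρ : G →* GL (Fin 2) ℂ)
    (hv : ∀ x, IsVanishing c x → Quasi (ρ x : M2)) {x : G}
    (hx : x ∈ Subgroup.closure (Set.range c)) : Quasi (ρ x : M2) := by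
  let H := Subgroup.closure (Set.range c)
  let c' : Fin n → H := fun i => ⟨c i, Subgroup.subset_closure ⟨i, rfl⟩⟩
  have hc' : Subgroup.closure (Set.range c') = ⊤ := by
    have h1 : (fun i => H.subtype (c' i)) = c := rfl
    apply Subgroup.map_injective H.subtype_injective
    rw [MonoidHom.map_closure, ← Set.range_comp, ← MonoidHom.range_eq_map, Subgroup.range_subtype]
    rfl
  have := (H2R.main H n c' (ρ.comp H.subtype) hn hc' fun y hy => hv _ (hy.map H.subtype)).1 ⟨x, hx⟩
  exact this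

variable {g k : ℕ} {w : SurfaceGroup g → ZMod k}

/-- **All eigenvalues are roots of unity.** -/
theorem quasi_of_spin (hg2 : 2 ≤ g) (hw : IsSpinStructure k w)
    (hg : 5 ≤ g ∨ Odd k ∨ ∃ h2 : 2 ∣ k,
      ∑ i, (ZMod.castHom h2 (ZMod 2) (w (a i)) + 1) * (ZMod.castHom h2 (ZMod 2) (w (b i)) + 1) =
        (SpQ.tri g : ZMod 2))
    (ρ : SurfaceGroup g →* GL (Fin 2) ℂ)
    (hρ : ∀ x, IsNonseparatingSimple x → w x = 0 → Quasi (ρ x : M2)) (x : SurfaceGroup g) :
    Quasi (ρ x : M2) := by
  obtain ⟨m, hm, hm2, φ, -, h⟩ := SpQ.exists_three hg2 hw hg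
  refine glue _ (closure_gens φ) ρ ?_ x
  intro j1 j2 j3 y hy
  let e : Fin (g + g) → Fin g := fun j => Sum.elim id id (finSumFinEquiv.symm j)
  obtain ⟨φ', hφ', hτ, hmem⟩ := h (e j1) (e j2) (e j3)
  obtain ⟨c, hc, hvan⟩ := SpQ.spin_chain hw hφ' hm fun i hi => by
    have := hτ ⟨i, hi⟩
    exact this
  refine of_chain (by omega) c ρ (fun z hz => hρ z (hvan z hz).1 (hvan z hz).2) ?_
  have hle : Subgroup.closure (Set.range (fun i : Fin m => φ' (a (Fin.castLE hm i))) ∪
      Set.range (fun i : Fin m => φ' (b (Fin.castLE hm i)))) ≤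
      Subgroup.closure (Set.range c) := by
    rw [hc]
    apply Subgroup.closure_mono
    rintro _ (⟨i, rfl⟩ | ⟨i, rfl⟩)
    · exact ⟨Fin.castLE hm i, i.2, Or.inl rfl⟩
    · exact ⟨Fin.castLE hm i, i.2, Or.inr rfl⟩
  have hgen : ∀ j, e j = e j1 ∨ e j = e j2 ∨ e j = e j3 →
      Sum.elim (fun i => φ (a i)) (fun i => φ (b i)) (finSumFinEquiv.symm j) ∈
        Subgroup.closure (Set.range c) := by
    intro j hj
    have h1 := hmem (e j) hj
    simp only [e] at h1
    rcases h2 : finSumFinEquiv.symm j with i | i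
    · rw [h2] at h1
      exact hle h1.1
    · rw [h2] at h1
      exact hle h1.2
  refine (Subgroup.closure_le _).2 ?_ hy
  rintro z (rfl | rfl | rfl)
  · exact hgen j1 (Or.inl rfl)
  · exact hgen j2 (Or.inr (Or.inl rfl))
  · exact hgen j3 (Or.inr (Or.inr rfl))

/-- **Rank two and spin structures.** The representation is unipotent on a normal subgroup of finite
index, its orbit under all automorphisms is finite, and its image is finite if it is completely
reducible. -/
theorem spin_main (hg2 : 2 ≤ g) (hw : IsSpinStructure k w)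
    (hg : 5 ≤ g ∨ Odd k ∨ ∃ h2 : 2 ∣ k,
      ∑ i, (ZMod.castHom h2 (ZMod 2) (w (a i)) + 1) * (ZMod.castHom h2 (ZMod 2) (w (b i)) + 1) =
        (SpQ.tri g : ZMod 2))
    (ρ : SurfaceGroup g →* GL (Fin 2) ℂ)
    (hρ : ∀ x, IsNonseparatingSimple x → w x = 0 → Quasi (ρ x : M2)) :
    (∃ H : Subgroup (SurfaceGroup g), H.Normal ∧ H.FiniteIndex ∧
      ∀ x ∈ H, ((ρ x : M2) - 1) ^ 2 = 0) ∧
    {χ : SurfaceGroup g → ℂ | ∃ φ : SurfaceGroup g ≃* SurfaceGroup g,
      χ = fun x => (ρ (φ x) : M2).trace}.Finite ∧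
    (CRed ρ → Finite ρ.range) := by
  have hq := quasi_of_spin hg2 hw hg ρ hρ
  have hc := closure_gens (MulEquiv.refl (SurfaceGroup g))
  have hfin := finite_of_cred _ hc ρ hq
  exact ⟨H2R.virt _ ρ hc hq hfin, H2R.finite_orbit_of_quasi _ ρ hc hq, hfin⟩

end Pool.Agent.H2G
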