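import Pool.Agent.HZ.RedB
import Pool.Agent.Helper84.AutC

/-!
# Unitary at all places and integral traces: roots of unity

Rank `r`.
-/

set_option autoImplicit false

namespace Pool.Agent.H2G

open Matrix Polynomial
open scoped ComplexOrder

variable {r : ℕ}

/-- The eigenvalues of an isometry have modulus one. -/
theorem norm_eigenvalueR {h a : Matrix (Fin r) (Fin r) ℂ} (hh : h.PosDef) (ha : aᴴ * h * a = h)
    {z : ℂ} (hz : a.charpoly.IsRoot z) : ‖z‖ = 1 := by
  have hz' : (a - z • (1 : Matrix (Fin r) (Fin r) ℂ)).det = 0 := by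
    rw [Polynomial.IsRoot, Matrix.eval_charpoly] at hz
    have h1 : a - z • (1 : Matrix (Fin r) (Fin r) ℂ) = -(scalar (Fin r) z - a) := by
      rw [neg_sub]
      congr 1
      ext i j
      simp [Matrix.scalar_apply, Matrix.one_apply, Matrix.diagonal_apply]
    rw [h1, Matrix.det_neg, hz, mul_zero]
  obtain ⟨v, hv, hv'⟩ := Matrix.exists_mulVec_eq_zero_iff.2 hz'
  have hav : a *ᵥ v = z • v := by
    rw [Matrix.sub_mulVec, Matrix.smul_mulVec, Matrix.one_mulVec, sub_eq_zero] at hv'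
    exact hv'
  have h1 : star v ⬝ᵥ (h *ᵥ v) = star z * z * (star v ⬝ᵥ (h *ᵥ v)) := by
    have h2 : star v ⬝ᵥ ((aᴴ * h * a) *ᵥ v) = star (a *ᵥ v) ⬝ᵥ (h *ᵥ (a *ᵥ v)) := by
      rw [← Matrix.mulVec_mulVec, ← Matrix.mulVec_mulVec, Matrix.dotProduct_mulVec,
        Matrix.star_mulVec]
    rw [ha, hav] at h2
    refine h2.trans ?_
    rw [Matrix.mulVec_smul, star_smul, smul_dotProduct, dotProduct_smul, smul_eq_mul,
      smul_eq_mul, mul_assoc]
  have h3 : star v ⬝ᵥ (h *ᵥ v) ≠ 0 := by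
    have h4 := hh.dotProduct_mulVec_pos hv
    exact h4.ne'
  have h4 : star z * z = 1 := by
    have h5 : (star z * z - 1) * (star v ⬝ᵥ (h *ᵥ v)) = 0 := by
      rw [sub_mul, one_mul, ← h1, sub_self]
    exact sub_eq_zero.1 ((mul_eq_zero.1 h5).resolve_right h3)
  have h5 : ((‖z‖ ^ 2 : ℝ) : ℂ) = 1 := by
    rw [← h4]
    have := Complex.conj_mul' z
    push_cast
    exact this.symm
  have h6 : ‖z‖ ^ 2 = 1 := by exact_mod_cast h5
  nlinarith [norm_nonneg z, sq_nonneg (‖z‖ - 1), sq_nonneg (‖z‖ + 1)]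

/-- The trace of an isometry. -/
theorem norm_trace_le {h a : Matrix (Fin r) (Fin r) ℂ} (hh : h.PosDef) (ha : aᴴ * h * a = h) :
    ‖a.trace‖ ≤ r := by
  rw [Matrix.trace_eq_sum_roots_charpoly]
  have h1 : ∀ s : Multiset ℂ, (∀ z ∈ s, ‖z‖ = 1) → ‖s.sum‖ ≤ s.card := by
    intro s
    induction s using Multiset.induction_on with
    | empty => simp
    | cons z s ih =>
      intro hs
      rw [Multiset.sum_cons, Multiset.card_cons]
      refine (norm_add_le _ _).trans ?_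
      rw [hs z (Multiset.mem_cons_self z s), add_comm]
      push_cast
      exact add_le_add_left (ih fun z hz => hs z (Multiset.mem_cons_of_mem hz)) 1
  refine (h1 _ fun z hz => norm_eigenvalueR hh ha (Polynomial.isRoot_of_mem_roots hz)).trans ?_
  have h2 := Polynomial.card_roots' a.charpoly
  rw [Matrix.charpoly_natDegree_eq_dim, Fintype.card_fin] at h2
  exact_mod_cast h2

/-- finitely many cyclotomic integers all of whose conjugates are bounded -/
theorem finite_conj (N : ℕ) (hN : 0 < N) (C : ℝ) :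
    {x : ℂ | x ∈ Subring.closure {z : ℂ | z ^ N = 1} ∧ ∀ τ : ℂ ≃+* ℂ, ‖τ x‖ ≤ C}.Finite := by
  have hfin : ({z : ℂ | z ^ N = 1} : Set ℂ).Finite := by
    classical
    refine ((Polynomial.nthRoots N (1 : ℂ)).toFinset.finite_toSet).subset ?_
    intro z hz
    rw [Finset.mem_coe, Multiset.mem_toFinset, Polynomial.mem_nthRoots hN]
    exact hz
  have : Finite ({z : ℂ | z ^ N = 1} : Set ℂ) := hfin
  have hintz : ∀ z : ℂ, z ^ N = 1 → IsIntegral ℤ z := fun z hz =>
    IsIntegral.of_pow hN (by rw [hz]; exact isIntegral_one)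
  let K : IntermediateField ℚ ℂ := IntermediateField.adjoin ℚ {z : ℂ | z ^ N = 1}
  have hfd : FiniteDimensional ℚ K := IntermediateField.finiteDimensional_adjoin fun x hx =>
    (hintz x hx).tower_top
  have hnf : NumberField K := ⟨⟩
  have hcl : ∀ x ∈ Subring.closure {z : ℂ | z ^ N = 1}, x ∈ K ∧ IsIntegral ℤ x := by
    intro x hx
    induction hx using Subring.closure_induction with
    | mem z hz => exact ⟨IntermediateField.subset_adjoin ℚ _ hz, hintz z hz⟩
    | zero => exact ⟨K.zero_mem, isIntegral_zero⟩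
    | one => exact ⟨K.one_mem, isIntegral_one⟩
    | add x y _ _ hx hy => exact ⟨K.add_mem hx.1 hy.1, hx.2.add hy.2⟩
    | neg x _ hx => exact ⟨K.neg_mem hx.1, hx.2.neg⟩
    | mul x y _ _ hx hy => exact ⟨K.mul_mem hx.1 hy.1, hx.2.mul hy.2⟩
  have h1 := NumberField.Embeddings.finite_of_norm_le K ℂ C
  refine (h1.image fun x : K => (x : ℂ)).subset ?_
  rintro x ⟨hx, hb⟩
  obtain ⟨hxK, hint⟩ := hcl x hx
  refine ⟨⟨x, hxK⟩, ⟨?_, ?_⟩, rfl⟩
  · obtain ⟨p, hp, hp'⟩ := hint
    refine ⟨p, hp, ?_⟩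
    apply Subtype.val_injective
    have e : Polynomial.eval₂ (algebraMap ℤ ℂ) x p =
        K.val.toRingHom (Polynomial.eval₂ (algebraMap ℤ K) ⟨x, hxK⟩ p) := by
      rw [Polynomial.hom_eval₂]
      congr 1
    rw [hp'] at e
    exact e.symm
  · intro φ
    obtain ⟨τ, hτ⟩ := Helper84.exists_aut K.val.toRingHom φ
    rw [← hτ]
    exact hb τ

theorem exists_eigenvectorR {A : Matrix (Fin r) (Fin r) ℂ} {z : ℂ} (hz : A.charpoly.IsRoot z) :
    ∃ v, v ≠ 0 ∧ A *ᵥ v = z • v := by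
  have hz' : (A - z • (1 : Matrix (Fin r) (Fin r) ℂ)).det = 0 := by
    rw [Polynomial.IsRoot, Matrix.eval_charpoly] at hz
    have h1 : A - z • (1 : Matrix (Fin r) (Fin r) ℂ) = -(scalar (Fin r) z - A) := by
      rw [neg_sub]
      congr 1
      ext i j
      simp [Matrix.scalar_apply, Matrix.one_apply, Matrix.diagonal_apply]
    rw [h1, Matrix.det_neg, hz, mul_zero]
  obtain ⟨v, hv, hv'⟩ := Matrix.exists_mulVec_eq_zero_iff.2 hz'
  refine ⟨v, hv, ?_⟩
  rw [Matrix.sub_mulVec, Matrix.smul_mulVec, Matrix.one_mulVec, sub_eq_zero] at hv'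
  exact hv'

theorem root_of_eigenvectorR {A : Matrix (Fin r) (Fin r) ℂ} {z : ℂ} {v : Fin r → ℂ} (hv : v ≠ 0)
    (h : A *ᵥ v = z • v) : A.charpoly.IsRoot z := by
  rw [Polynomial.IsRoot, Matrix.eval_charpoly]
  refine Matrix.exists_mulVec_eq_zero_iff.1 ⟨v, hv, ?_⟩
  rw [Matrix.sub_mulVec, h, sub_eq_zero]
  ext i
  simp [Matrix.scalar_apply, Matrix.mulVec_diagonal]

theorem powR_mulVec {A : Matrix (Fin r) (Fin r) ℂ} {v : Fin r → ℂ} {l : ℂ} (h : A *ᵥ v = l • v)
    (k : ℕ) : (A ^ k) *ᵥ v = l ^ k • v := by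
  induction k with
  | zero => rw [pow_zero, pow_zero, Matrix.one_mulVec, one_smul]
  | succ k ih => rw [pow_succ, ← Matrix.mulVec_mulVec, h, Matrix.mulVec_smul, ih, smul_smul, pow_succ,
      mul_comm l]

/-- The traces of the powers of a matrix take finitely many values only if the nonzero eigenvalues
are roots of unity. -/
theorem root_of_finite (a : Matrix (Fin r) (Fin r) ℂ)
    (h : (Set.range fun k : ℕ => (a ^ k).trace).Finite) (z : ℂ) (hz : a.charpoly.IsRoot z)
    (hz0 : z ≠ 0) : ∃ k > 0, z ^ k = 1 := by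
  have := h.to_subtype
  obtain ⟨k, l, hkl, heq⟩ := Finite.exists_ne_map_eq_of_infinite
    (fun k : ℕ => fun i : Fin r =>
      (⟨(a ^ (k + i)).trace, k + i, rfl⟩ : Set.range fun k : ℕ => (a ^ k).trace))
  have heq' : ∀ i : Fin r, (a ^ (k + i)).trace = (a ^ (l + i)).trace := fun i =>
    congrArg Subtype.val (congrFun heq i)
  clear heq
  obtain ⟨k, M, hM, hper⟩ : ∃ k M : ℕ, 0 < M ∧ ∀ i < r,
      (a ^ (k + i)).trace = (a ^ (k + M + i)).trace := by
    rcases lt_or_gt_of_ne hkl with h1 | h1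
    · refine ⟨k, l - k, by omega, fun i hi => ?_⟩
      have h2 := heq' ⟨i, hi⟩
      rw [show k + (l - k) + i = l + i by omega]
      exact h2
    · refine ⟨l, k - l, by omega, fun i hi => ?_⟩
      have h2 := heq' ⟨i, hi⟩
      rw [show l + (k - l) + i = k + i by omega]
      exact h2.symm
  set b : Matrix (Fin r) (Fin r) ℂ := a ^ (k + M) - a ^ k with hb
  -- the linear functional
  have hX : ∀ i < r, (b * a ^ i).trace = 0 := by
    intro i hi
    rw [hb, sub_mul, ← pow_add, ← pow_add, Matrix.trace_sub, hper i hi, sub_self]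
  have hlow : ∀ q : ℂ[X], q.degree < r → (b * aeval a q).trace = 0 := by
    intro q hq
    rw [aeval_eq_sum_range' (n := r) (by
      rcases eq_or_ne q 0 with rfl | h0
      · rcases Nat.eq_zero_or_pos r with h1 | h1
        · subst h1
          rw [degree_zero] at hq
          exfalso
          have hr : IsEmpty (Fin 0) := inferInstance
          have hd : a.charpoly = 1 := by
            rw [Matrix.charpoly, Matrix.det_isEmpty]
          rw [hd, Polynomial.IsRoot, Polynomial.eval_one] at hz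
          exact one_ne_zero hz
        · rw [natDegree_zero]
          exact h1
      · exact (natDegree_lt_iff_degree_lt h0).2 hq), Finset.mul_sum, Matrix.trace_sum]
    refine Finset.sum_eq_zero fun i hi => ?_
    rw [mul_smul_comm, Matrix.trace_smul, hX i (Finset.mem_range.1 hi), smul_zero]
  have hall : ∀ q : ℂ[X], (b * aeval a q).trace = 0 := by
    intro q
    have h1 : aeval a q = aeval a (q %ₘ a.charpoly) := by
      conv_lhs => rw [← modByMonic_add_div q a.charpoly]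
      rw [map_add, map_mul, Matrix.aeval_self_charpoly, zero_mul, add_zero]
    rw [h1]
    refine hlow _ ?_
    have h2 := degree_modByMonic_lt q (Matrix.charpoly_monic a)
    rw [Matrix.charpoly_degree_eq_dim, Fintype.card_fin] at h2
    exact h2
  have hbq : b = aeval a ((X : ℂ[X]) ^ (k + M) - X ^ k) := by
    rw [map_sub, map_pow, map_pow, aeval_X, hb]
  have htr : ∀ j : ℕ, (b ^ j).trace = ((0 : Matrix (Fin r) (Fin r) ℂ) ^ j).trace := by
    intro j
    cases j with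
    | zero => rw [pow_zero, pow_zero]
    | succ j =>
      rw [pow_succ', zero_pow (Nat.succ_ne_zero j), Matrix.trace_zero]
      have h1 : b ^ j = aeval a (((X : ℂ[X]) ^ (k + M) - X ^ k) ^ j) := by rw [map_pow, ← hbq]
      rw [h1]
      exact hall _
  obtain ⟨v, hv, hav⟩ := exists_eigenvectorR hz
  have hbv : b *ᵥ v = (z ^ (k + M) - z ^ k) • v := by
    rw [hb, Matrix.sub_mulVec, powR_mulVec hav, powR_mulVec hav, sub_smul]
  have h0 := HZ.root_of_traces b 0 htr _ (root_of_eigenvectorR hv hbv)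
  obtain ⟨w, hw, h0w⟩ := exists_eigenvectorR h0
  rw [Matrix.zero_mulVec] at h0w
  have h1 : z ^ (k + M) - z ^ k = 0 := (smul_eq_zero.1 h0w.symm).resolve_right hw
  refine ⟨M, hM, ?_⟩
  have h2 : z ^ k * (z ^ M - 1) = 0 := by
    rw [mul_sub, ← pow_add, mul_one]
    exact h1
  exact sub_eq_zero.1 ((mul_eq_zero.1 h2).resolve_left (pow_ne_zero k hz0))

theorem quasi_of_finite (A : GL (Fin r) ℂ)
    (h : (Set.range fun k : ℕ => ((A : Matrix (Fin r) (Fin r) ℂ) ^ k).trace).Finite) :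
    ∀ z : ℂ, (A : Matrix (Fin r) (Fin r) ℂ).charpoly.IsRoot z → ∃ k > 0, z ^ k = 1 := by
  intro z hz
  refine root_of_finite _ h z hz ?_
  rintro rfl
  obtain ⟨v, hv, hav⟩ := exists_eigenvectorR hz
  rw [zero_smul] at hav
  have h2 : ((A⁻¹ : GL (Fin r) ℂ) : Matrix (Fin r) (Fin r) ℂ) *ᵥ
      ((A : Matrix (Fin r) (Fin r) ℂ) *ᵥ v) = v := by
    rw [Matrix.mulVec_mulVec, ← Units.val_mul, inv_mul_cancel, Units.val_one, Matrix.one_mulVec]
  rw [hav, Matrix.mulVec_zero] at h2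
  exact hv h2.symm

/-- **[UNI]** If all traces are cyclotomic integers of level `N` and the representation is unitary
at all places then all eigenvalues are roots of unity. -/
theorem quasi_of_unitary {G : Type*} [Group G] (ρ : G →* GL (Fin r) ℂ) (N : ℕ) (hN : 0 < N)
    (h1 : ∀ x, (ρ x : Matrix (Fin r) (Fin r) ℂ).trace ∈ Subring.closure {z : ℂ | z ^ N = 1})
    (h2 : ∀ (τ : ℂ ≃+* ℂ) (x : G), ‖τ (ρ x : Matrix (Fin r) (Fin r) ℂ).trace‖ ≤ r) (x : G) :
    ∀ z : ℂ, (ρ x : Matrix (Fin r) (Fin r) ℂ).charpoly.IsRoot z → ∃ k > 0, z ^ k = 1 := by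
  refine quasi_of_finite (ρ x) ((finite_conj N hN r).subset ?_)
  rintro _ ⟨k, rfl⟩
  have e : ((ρ x : Matrix (Fin r) (Fin r) ℂ) ^ k) = (ρ (x ^ k) : Matrix (Fin r) (Fin r) ℂ) := by
    rw [map_pow, Units.val_pow_eq_pow_val]
  simp only [e]
  exact ⟨h1 _, fun τ => h2 τ _⟩

/-- The conjugate of a matrix representation by an automorphism of the field. -/
noncomputable def twR {G : Type*} [Group G] (τ : ℂ ≃+* ℂ) (ρ : G →* GL (Fin r) ℂ) :
    G →* GL (Fin r) ℂ :=
  (Matrix.GeneralLinearGroup.map (τ : ℂ →+* ℂ)).comp ρ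

theorem twR_apply {G : Type*} [Group G] (τ : ℂ ≃+* ℂ) (ρ : G →* GL (Fin r) ℂ) (x : G) :
    (twR τ ρ x : Matrix (Fin r) (Fin r) ℂ) = (ρ x : Matrix (Fin r) (Fin r) ℂ).map τ := rfl

theorem trace_map (τ : ℂ ≃+* ℂ) (A : Matrix (Fin r) (Fin r) ℂ) :
    (A.map τ).trace = τ A.trace := by
  simp only [Matrix.trace, Matrix.diag_apply, Matrix.map_apply, map_sum]

/-- **[UNI]**, second form. -/
theorem quasi_of_forms {G : Type*} [Group G] (ρ : G →* GL (Fin r) ℂ) (N : ℕ) (hN : 0 < N)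
    (h1 : ∀ x, (ρ x : Matrix (Fin r) (Fin r) ℂ).trace ∈ Subring.closure {z : ℂ | z ^ N = 1})
    (h2 : ∀ τ : ℂ ≃+* ℂ, ∃ h : Matrix (Fin r) (Fin r) ℂ, h.PosDef ∧
      ∀ x, (twR τ ρ x : Matrix (Fin r) (Fin r) ℂ)ᴴ * h * (twR τ ρ x : Matrix (Fin r) (Fin r) ℂ) = h)
    (x : G) :
    ∀ z : ℂ, (ρ x : Matrix (Fin r) (Fin r) ℂ).charpoly.IsRoot z → ∃ k > 0, z ^ k = 1 := by
  refine quasi_of_unitary ρ N hN h1 (fun τ x => ?_) x
  obtain ⟨h, hh, hinv⟩ := h2 τ
  rw [← trace_map, ← twR_apply]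
  exact norm_trace_le hh (hinv x)

end Pool.Agent.H2G
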